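import Pool.Agent.Helper57.THA.St
import Pool.Agent.Helper45.UC.Star
import Pool.Agent.Helper81.TA.Stare

/-! [STARE]: functions of the base point which are polynomials of degree at most `k` along all lines are polynomials of
degree at most `k (d + 1)`, on an event of an extension. -/

set_option autoImplicit false

namespace Pool.Agent.Helper45.THA

open Filter Topology Pool.Agent.Helper69.RK
open Pool.Agent.Helper31.EC QS Sp Pool.Agent.Helper45.UC
open Pool.Agent.Helper13.AM (CD Cls)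

noncomputable section

/-- an extension of an event as an event of an extension, with the degree -/
theorem ev_outD {S V T : Sp} (p : Pj V S) (e : Ev T V) {D K : ℕ} (q : Fin D → QS S) (a : QS S)
    (Θ : MvPolynomial (Fin D) (QS T)) {r : ℝ} (hr : r ≤ 1) (h1 : Θ ∈ PK ⊥) (hd : Θ.totalDegree ≤ K)
    (h2 : e.r (p.qs a) - MvPolynomial.eval (fun j => e.r (p.qs (q j))) Θ ∈ Id T r) :
    ∃ (W : Sp) (t : Pj W S) (E : ∀ k, (W.F k).Ω → Prop) (hE : 0 < ul (W.pr E))
      (Θ' : MvPolynomial (Fin D) (QS (W.rest E))), Θ' ∈ PK ⊥ ∧ Θ'.totalDegree ≤ K ∧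
      QS.rest E hE (t.qs a) - MvPolynomial.eval (fun j => QS.rest E hE (t.qs (q j))) Θ' ∈ Id (W.rest E) r := by
  obtain ⟨E, hE, q'⟩ := e
  have key : ∀ x : QS V, (Pool.Agent.Helper70.FW.gJ q').qs (q'.qs (QS.rest E hE x)) =
      QS.rest (Pool.Agent.Helper70.FW.gD q') (Pool.Agent.Helper70.FW.gD_pos q' hE)
        ((Pool.Agent.Helper46.LIN.liftP q').qs x) := by
    intro x
    apply (Pool.Agent.Helper70.FW.gR q').qs_injective
    rw [Pool.Agent.Helper70.FW.gR_gJ_qs, Pool.Agent.Helper70.FW.gR_qs q' hE]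
  refine ⟨Pool.Agent.Helper46.LIN.lift q', (Pool.Agent.Helper46.LIN.liftP q').comp p,
    Pool.Agent.Helper70.FW.gD q', Pool.Agent.Helper70.FW.gD_pos q' hE,
    MvPolynomial.map (Pool.Agent.Helper70.FW.gJ q').qs Θ, ?_, ?_, ?_⟩
  · have h3 := map_PK (Pool.Agent.Helper70.FW.gJ q') h1
    rwa [Pj.map_bot] at h3
  · unfold MvPolynomial.totalDegree
    exact (Finset.sup_mono (MvPolynomial.support_map_subset _ _)).trans hd
  · have h3 := ((Pool.Agent.Helper70.FW.gJ q').qs_mem_Id hr).mpr h2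
    rw [map_sub, qs_eval] at h3
    have e1 : ∀ x : QS S, (Pool.Agent.Helper70.FW.gJ q').qs ((Ev.mk E hE q').r (p.qs x)) =
        QS.rest (Pool.Agent.Helper70.FW.gD q') (Pool.Agent.Helper70.FW.gD_pos q' hE)
          (((Pool.Agent.Helper46.LIN.liftP q').comp p).qs x) := by
      intro x
      rw [Pj.comp_qs, ← key]
      rfl
    rw [e1] at h3
    simp only [e1] at h3
    exact h3

/-- the height is real over the base line -/
theorem time_b {S : Sp} {d N r : ℕ} {c : CD S d N r} (hc : c.Ln) (i : Fin r) : h (dg (c.q 0) 1) (c.b i) = 1 := by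
  apply le_antisymm (h_dg_le_one _ _)
  refine (hc.time i).ge.trans (h_anti ?_)
  unfold CD.xi
  exact le_sup_left

/-- [STARE] -/
theorem st_STARE : Pool.Agent.Helper57.THA.ST_STARE := by
  intro d N r w z ρ C hd hC k
  refine ⟨k * (d + 1), ?_⟩
  intro S c hc a κ κ0 κ1 ha hw
  have hA := hC.ax S c hc
  obtain ⟨V, p, T, e, Θ, h1, h2, h3⟩ := star_corD hA (B := c.b) (fun i => le_rfl) (fun i => time_b hA.ln i)
    (fun _ : Unit => a) (fun _ => ha) κ0 κ1 (K := k) (fun i _ => hw i)
  exact ev_outD p e c.q a (Θ ()) κ1 (h1 ()) (h2 ()) (h3 ())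

end

end Pool.Agent.Helper45.THA
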